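import Pool.Agent.E8helper2.PS.Stm

set_option autoImplicit false
open MeasureTheory Filter Topology
namespace Pool.Agent.E8helper72.PS
open Pool.Agent.E8helper2.PS

theorem cont_Dl (h3 : S_CONT) {a : ℕ → ℂ} {M : ℝ} (ha : ∀ n, ‖a n‖ ≤ M) (N : ℕ) {t : ℝ} (ht : 0 < t) :
    Continuous (fun θ : ℝ => Dl a N t θ) := by
  have hM : 0 ≤ M := (norm_nonneg _).trans (ha 0)
  have h1 : ∀ n, ‖sh a N n‖ ≤ M := fun n => ha _
  have h2 : ∀ n, ‖rv a N n‖ ≤ M := by
    intro n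
    unfold rv
    split_ifs
    · exact ha _
    · simpa using hM
  have c1 := (h3 _ M h1).1.continuousOn
  have c2 := (h3 _ M h2).1.continuousOn
  unfold Dl
  refine Continuous.add ?_ ?_
  · exact c1.comp_continuous (by fun_prop) (fun θ => by simp [ht])
  · exact c2.comp_continuous (by fun_prop) (fun θ => by simp [ht])

theorem t_CELL (h1 : S_GAPI) (h3 : S_CONT) : S_CELL := by
  intro a M S hyp x hx hy L hL
  refine ⟨1, one_pos, fun N t ht _ => ?_⟩
  obtain ⟨y, hydef⟩ : ∃ y : ℝ, y = x + 2 * Real.pi := ⟨_, rfl⟩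
  rw [← hydef] at hy hL ⊢
  have hxy : x < y := by rw [hydef]; linarith [Real.pi_pos]
  obtain ⟨U, hU⟩ : ∃ U : Set ℝ, U = ⋃ p ∈ L, Set.Ioo p.1 p.2 := ⟨_, rfl⟩
  rw [← hU]
  obtain ⟨W, hW⟩ : ∃ W : Set ℝ, W = (Set.Ioo x y \ S) \ U := ⟨_, rfl⟩
  rw [← hW]
  have hM : 0 ≤ M := (norm_nonneg _).trans (hyp.coef 0)
  have hcont := cont_Dl h3 hyp.coef N ht
  have hUm : MeasurableSet U := by
    rw [hU]
    exact Finset.measurableSet_biUnion L (fun p _ => measurableSet_Ioo)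
  have hWm : MeasurableSet W := by
    rw [hW]
    exact (measurableSet_Ioo.diff hyp.closed.measurableSet).diff hUm
  have hmem : ∀ θ, θ ∈ W ↔ ((x < θ ∧ θ < y) ∧ θ ∉ S) ∧ θ ∉ U := fun θ => by rw [hW]; rfl
  have hWsub : W ⊆ Set.Icc x y := fun θ h =>
    ⟨((hmem θ).1 h).1.1.1.le, ((hmem θ).1 h).1.1.2.le⟩
  have hint : IntegrableOn (fun θ => Dl a N t θ) W := (hcont.integrableOn_Icc).mono_set hWsub
  have hfin : volume W ≠ ⊤ := ((measure_mono hWsub).trans_lt measure_Icc_lt_top).ne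
  obtain ⟨A, hA⟩ : ∃ A : ℝ → Prop, ∀ k, A k ↔ ‖∫ θ in W ∩ Set.Iio k, Dl a N t θ‖ ≤
      12 * M * (volume (W ∩ Set.Iio k)).toReal := ⟨fun k => _, fun k => Iff.rfl⟩
  have step : ∀ k k' : ℝ, k ≤ k' → A k → ‖∫ θ in W ∩ Set.Ico k k', Dl a N t θ‖ ≤
      12 * M * (volume (W ∩ Set.Ico k k')).toReal → A k' := by
    intro k k' hkk hk hi
    rw [hA] at hk ⊢
    have e : W ∩ Set.Iio k' = (W ∩ Set.Iio k) ∪ (W ∩ Set.Ico k k') := by
      rw [← Set.inter_union_distrib_left, Set.Iio_union_Ico_eq_Iio hkk]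
    have hd : Disjoint (W ∩ Set.Iio k) (W ∩ Set.Ico k k') := by
      rw [Set.disjoint_left]
      rintro θ ⟨_, h2⟩ ⟨_, h4⟩
      exact absurd h2 (not_lt.2 h4.1)
    have hm2 : MeasurableSet (W ∩ Set.Ico k k') := hWm.inter measurableSet_Ico
    rw [e, setIntegral_union hd hm2 (hint.mono_set Set.inter_subset_left)
      (hint.mono_set Set.inter_subset_left), measure_union hd hm2,
      ENNReal.toReal_add (ne_top_of_le_ne_top hfin (measure_mono Set.inter_subset_left))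
        (ne_top_of_le_ne_top hfin (measure_mono Set.inter_subset_left))]
    calc _ ≤ ‖∫ θ in W ∩ Set.Iio k, Dl a N t θ‖ + ‖∫ θ in W ∩ Set.Ico k k', Dl a N t θ‖ :=
          norm_add_le _ _
      _ ≤ 12 * M * (volume (W ∩ Set.Iio k)).toReal +
          12 * M * (volume (W ∩ Set.Ico k k')).toReal := add_le_add hk hi
      _ = _ := by ring
  have small : ∀ k k' : ℝ, k ∈ S → k' ∈ S → k < k' → k' ≤ k + t → A k → A k' := by
    intro k k' hk hk' hlt hle hAk
    refine step k k' hlt.le hAk ?_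
    have hb := (h1 a M S hyp k hk k' hk' hlt N t ht).2 (by linarith)
    have hfin2 : volume (W ∩ Set.Ico k k') < ⊤ :=
      (measure_mono Set.inter_subset_left).trans_lt (lt_top_iff_ne_top.2 hfin)
    have h8 := norm_setIntegral_le_of_norm_le_const (μ := volume) (s := W ∩ Set.Ico k k')
      (C := 8 * M) (f := fun θ => Dl a N t θ) hfin2
      (fun θ hθ => hb θ ⟨hθ.2.1, hθ.2.2.le⟩)
    have h9 : 0 ≤ (volume (W ∩ Set.Ico k k')).toReal := ENNReal.toReal_nonneg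
    have h10 : ‖∫ θ in W ∩ Set.Ico k k', Dl a N t θ‖ ≤
        8 * M * (volume (W ∩ Set.Ico k k')).toReal := h8
    refine h10.trans ?_
    have := mul_nonneg hM h9
    nlinarith
  have gap : ∀ k : ℝ, k ∈ S → x ≤ k → k < y → A k → (∀ θ ∈ S, k < θ → k + t < θ) →
      ∃ k' ∈ S, k < k' ∧ k' ≤ y ∧ A k' := by
    intro k hk hxk hky hAk hno
    have hne : (S ∩ Set.Ici (k + t)).Nonempty := ⟨y, hy, (hno y hy hky).le⟩
    have hbb : BddBelow (S ∩ Set.Ici (k + t)) := ⟨k + t, fun θ hθ => hθ.2⟩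
    obtain ⟨k', hk'⟩ : ∃ k' : ℝ, k' = sInf (S ∩ Set.Ici (k + t)) := ⟨_, rfl⟩
    have hk'mem : k' ∈ S ∩ Set.Ici (k + t) := by
      rw [hk']
      exact (hyp.closed.inter isClosed_Ici).csInf_mem hne hbb
    have hk1 : k + t ≤ k' := hk'mem.2
    have hk2 : k < k' := by linarith
    have hk3 : k' ≤ y := by
      rw [hk']
      exact csInf_le hbb ⟨hy, (hno y hy hky).le⟩
    have hk4 : ∀ θ, k < θ → θ < k' → θ ∉ S := by
      intro θ ha hb hc
      have : k' ≤ θ := by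
        rw [hk']
        exact csInf_le hbb ⟨hc, (hno θ hc ha).le⟩
      linarith
    refine ⟨k', hk'mem.1, hk2, hk3, step k k' hk2.le hAk ?_⟩
    by_cases h : ∃ p ∈ L, ∃ θ, (k < θ ∧ θ < k') ∧ (p.1 < θ ∧ θ < p.2)
    · obtain ⟨p, hp, θ, ⟨ha, hb⟩, hc, hd⟩ := h
      obtain ⟨q1, q2, q3, q4, q5, q6⟩ := hL p hp
      have e1 : p.1 ≤ k := by
        by_contra hcon
        exact hk4 p.1 (not_le.1 hcon) (by linarith) q2
      have e3 : k' ≤ p.2 := by
        by_contra hcon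
        exact hk4 p.2 (by linarith) (not_le.1 hcon) q3
      have e : W ∩ Set.Ico k k' = ∅ := by
        ext θ'
        simp only [Set.mem_inter_iff, Set.mem_Ico, Set.mem_empty_iff_false, iff_false, not_and]
        intro hw h5 h6
        have h7 := (hmem θ').1 hw
        have h8 : k < θ' := lt_of_le_of_ne h5 (fun h => h7.1.2 (h ▸ hk))
        apply h7.2
        rw [hU]
        exact Set.mem_biUnion hp ⟨lt_of_le_of_lt e1 h8, lt_of_lt_of_le h6 e3⟩
      rw [e]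
      simp
    · push Not at h
      have e : W ∩ Set.Ico k k' = Set.Ioo k k' := by
        ext θ'
        constructor
        · rintro ⟨hw, h5, h6⟩
          have h7 := (hmem θ').1 hw
          exact ⟨lt_of_le_of_ne h5 (fun h => h7.1.2 (h ▸ hk)), h6⟩
        · rintro ⟨h5, h6⟩
          refine ⟨(hmem θ').2 ⟨⟨⟨by linarith, by linarith⟩, hk4 θ' h5 h6⟩, ?_⟩, h5.le, h6⟩
          rw [hU]
          simp only [Set.mem_iUnion, not_exists]
          intro p hp hq
          exact absurd hq.2 (not_lt.2 (h p hp θ' ⟨h5, h6⟩ hq.1))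
      rw [e, ← integral_Ioc_eq_integral_Ioo, ← intervalIntegral.integral_of_le hk2.le,
        Real.volume_Ioo, ENNReal.toReal_ofReal (by linarith)]
      exact (h1 a M S hyp k hk k' hk'mem.1 hk2 N t ht).1 (by linarith)
  obtain ⟨T, hT⟩ : ∃ T : Set ℝ, ∀ k, k ∈ T ↔ k ∈ S ∧ x ≤ k ∧ k ≤ y ∧ A k :=
    ⟨{k | k ∈ S ∧ x ≤ k ∧ k ≤ y ∧ A k}, fun k => Iff.rfl⟩
  have hxT : x ∈ T := by
    rw [hT, hA]
    refine ⟨hx, le_rfl, hxy.le, ?_⟩
    have e : W ∩ Set.Iio x = ∅ := by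
      ext θ
      simp only [Set.mem_inter_iff, Set.mem_Iio, Set.mem_empty_iff_false, iff_false, not_and,
        not_lt]
      intro hw
      exact ((hmem θ).1 hw).1.1.1.le
    rw [e]
    simp
  have hbd : BddAbove T := ⟨y, fun k hk => ((hT k).1 hk).2.2.1⟩
  obtain ⟨s, hs⟩ : ∃ s : ℝ, s = sSup T := ⟨_, rfl⟩
  have hle : ∀ k ∈ T, k ≤ s := fun k hk => by rw [hs]; exact le_csSup hbd hk
  have hsle : s ≤ y := by rw [hs]; exact csSup_le ⟨x, hxT⟩ (fun k hk => ((hT k).1 hk).2.2.1)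
  have hxs : x ≤ s := hle x hxT
  have hsS : s ∈ S := by
    have h : s ∈ closure T := by rw [hs]; exact csSup_mem_closure ⟨x, hxT⟩ hbd
    exact (hyp.closed.closure_subset_iff.2 (fun k hk => ((hT k).1 hk).1)) h
  have hsA : A s := by
    obtain ⟨k, hkT, hk⟩ := exists_lt_of_lt_csSup (s := T) (b := s - t) ⟨x, hxT⟩
      (by rw [← hs]; linarith)
    rcases (hle k hkT).eq_or_lt with h | h
    · rw [← h]; exact ((hT k).1 hkT).2.2.2
    · exact small k s ((hT k).1 hkT).1 hsS h (by linarith) ((hT k).1 hkT).2.2.2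
  have hsy : s = y := by
    by_contra hne
    have hlt : s < y := lt_of_le_of_ne hsle hne
    by_cases h : ∃ θ ∈ S, s < θ ∧ θ ≤ s + t
    · obtain ⟨θ, hθ, h1', h2'⟩ := h
      rcases le_total θ y with h3' | h3'
      · have h4 : θ ∈ T := (hT θ).2 ⟨hθ, by linarith, h3', small s θ hsS hθ h1' h2' hsA⟩
        exact absurd (hle θ h4) (not_le.2 h1')
      · have h4 : y ∈ T := (hT y).2 ⟨hy, hxy.le, le_rfl, small s y hsS hy hlt (by linarith) hsA⟩
        exact absurd (hle y h4) (not_le.2 hlt)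
    · push Not at h
      obtain ⟨k', hk', h1', h2', h3'⟩ := gap s hsS hxs hlt hsA (fun θ hθ hs => h θ hθ hs)
      exact absurd (hle k' ((hT k').2 ⟨hk', by linarith, h2', h3'⟩)) (not_le.2 h1')
  have hfinal : W ∩ Set.Iio y = W := by
    refine Set.inter_eq_left.2 fun θ hw => ((hmem θ).1 hw).1.1.2
  rw [hsy, hA, hfinal] at hsA
  exact hsA

end Pool.Agent.E8helper72.PS
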